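import Mathlib
import Pool.Agent.H311R2.Landau
import Pool.Agent.H311R2.Odometer

/-!
The Landau-type version (L) of Sarnak's conjecture is false, even for systems which are Moebius
disjoint: it fails at every point with infinite forward orbit of every compact metric system.
-/

open Filter Topology

namespace Pool.Agent.Results.MP_aae597_nt.LandauVersionFails

/-- Statement (L) of the problem: for every deterministic system `(X, T)`, every continuous
`f : X → ℂ` and every `x`, the series `∑ μ(n)/n f(T^n x)` converges. -/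
def LandauVersion : Prop :=
  ∀ (X : Type) [MetricSpace X] [CompactSpace X] (T : X → X), Continuous T →
    Dynamics.coverEntropy T Set.univ = 0 →
    ∀ f : X → ℂ, Continuous f → ∀ x : X,
      ∃ L : ℂ, Tendsto (fun N : ℕ =>
        ∑ n ∈ Finset.Icc 1 N, ((ArithmeticFunction.moebius n : ℤ) : ℂ) / (n : ℂ) * f (T^[n] x))
        atTop (𝓝 L)

/-- Moebius disjointness of one system: all averages of `μ(n) f(T^n x)` tend to `0`. -/
def MobiusDisjoint (X : Type) [TopologicalSpace X] (T : X → X) : Prop :=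
  ∀ f : X → ℂ, Continuous f → ∀ x : X,
    Tendsto (fun N : ℕ =>
      (∑ n ∈ Finset.Icc 1 N, ((ArithmeticFunction.moebius n : ℤ) : ℂ) * f (T^[n] x)) / (N : ℂ))
      atTop (𝓝 0)

/-- `(L)` is false; indeed for every map `T` of a compact metric space and every point `x` with
infinite forward orbit, the partial sums of `∑ μ(n)/n f(T^n x)` are unbounded for all `f` outside
a meagre subset of `C(X)`. There is a continuous zero entropy map, all of whose forward orbits are
infinite, which is Moebius disjoint. -/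
theorem result :
    ¬ LandauVersion ∧
    (∀ (X : Type) [MetricSpace X] [CompactSpace X] (T : X → X) (x : X),
      (Set.range fun n : ℕ => T^[n] x).Infinite →
      IsMeagre {f : C(X, ℂ) | ∃ C : ℝ, ∀ N : ℕ,
        ‖∑ n ∈ Finset.Icc 1 N, ((ArithmeticFunction.moebius n : ℤ) : ℂ) / (n : ℂ) *
          f (T^[n] x)‖ ≤ C}) ∧
    (∃ (X : Type) (_ : MetricSpace X) (_ : CompactSpace X) (T : X → X), Continuous T ∧
      Dynamics.coverEntropy T Set.univ = 0 ∧ MobiusDisjoint X T ∧
      ∀ x : X, (Set.range fun n : ℕ => T^[n] x).Infinite) := by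
  have hgen : ∀ (X : Type) [MetricSpace X] [CompactSpace X] (T : X → X) (x : X),
      (Set.range fun n : ℕ => T^[n] x).Infinite →
      IsMeagre {f : C(X, ℂ) | ∃ C : ℝ, ∀ N : ℕ,
        ‖∑ n ∈ Finset.Icc 1 N, ((ArithmeticFunction.moebius n : ℤ) : ℂ) / (n : ℂ) *
          f (T^[n] x)‖ ≤ C} :=
    fun X _ _ T x h => Pool.Agent.H311R2.meagre_bounded T x h
  refine ⟨?_, hgen, ℤ_[2], inferInstance, inferInstance, Pool.Agent.H311R2.odo,
    Pool.Agent.H311R2.odo_continuous, Pool.Agent.H311R2.odo_entropy,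
    Pool.Agent.H311R2.odo_disjoint, Pool.Agent.H311R2.odo_orbit⟩
  intro hL
  have hm := hgen ℤ_[2] Pool.Agent.H311R2.odo 0 (Pool.Agent.H311R2.odo_orbit 0)
  have huniv : {f : C(ℤ_[2], ℂ) | ∃ C : ℝ, ∀ N : ℕ,
        ‖∑ n ∈ Finset.Icc 1 N, ((ArithmeticFunction.moebius n : ℤ) : ℂ) / (n : ℂ) *
          f (Pool.Agent.H311R2.odo^[n] 0)‖ ≤ C} = Set.univ := by
    refine Set.eq_univ_of_forall fun f => ?_
    obtain ⟨L, hf⟩ := hL ℤ_[2] Pool.Agent.H311R2.odo Pool.Agent.H311R2.odo_continuous
      Pool.Agent.H311R2.odo_entropy f f.continuous 0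
    obtain ⟨C, hC⟩ := hf.norm.bddAbove_range
    exact ⟨C, fun N => hC ⟨N, rfl⟩⟩
  rw [huniv] at hm
  exact not_isMeagre_of_isOpen isOpen_univ ⟨0, trivial⟩ hm

end Pool.Agent.Results.MP_aae597_nt.LandauVersionFails
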